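import Mathlib
import Pool.Agent.Helper98.QNWords
import Pool.Agent.Helper98.QNComb

/-!
The Quillen negation monoid of the category of topological spaces is finite.
-/

universe u

open CategoryTheory

namespace Pool.Agent.Results.MP_97cbc3_al.Finiteness

/-- The two letters `l` and `r`. -/
inductive Letter : Type
  | l : Letter
  | r : Letter

/-- The Quillen negation attached to a letter: `l` sends a class `P` of morphisms to the class
`P^l` of morphisms with the left lifting property against all members of `P`, and `r` sends `P` to
the class `P^r` of morphisms with the right lifting property against all members of `P`. -/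
def neg : Letter → MorphismProperty TopCat.{u} → MorphismProperty TopCat.{u}
  | Letter.l, P => P.llp
  | Letter.r, P => P.rlp

/-- The class `P^w`: the letters of the word `w` are applied from left to right, the empty word
acting as the identity. -/
def negWord (w : FreeMonoid Letter) (P : MorphismProperty TopCat.{u}) :
    MorphismProperty TopCat.{u} :=
  (FreeMonoid.toList w).foldl (fun Q a => neg a Q) P

lemma negWord_mul (w w' : FreeMonoid Letter) (P : MorphismProperty TopCat.{u}) :
    negWord (w * w') P = negWord w' (negWord w P) := by
  simp [negWord, FreeMonoid.toList_mul, List.foldl_append]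

/-- Two words are identified if they give the same operator on classes of morphisms of the
category of topological spaces. -/
def wordCon : Con (FreeMonoid Letter) where
  r w w' := ∀ P : MorphismProperty TopCat.{u}, negWord w P = negWord w' P
  iseqv := ⟨fun _ _ => rfl, fun h P => (h P).symm, fun h h' P => (h P).trans (h' P)⟩
  mul' := by
    intro a b c d hab hcd P
    rw [negWord_mul, negWord_mul, hab, hcd]

/-- The Quillen negation monoid of the category of topological spaces: words in `l`, `r` modulo
identification, with concatenation as product. -/
abbrev QN : Type := wordCon.{u}.Quotient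

open Helper98 in
/-- conversion of letters -/
def conv : Letter → QNComb.Letter
  | Letter.l => QNComb.Letter.l
  | Letter.r => QNComb.Letter.r

open Helper98 in
/-- the operators -/
def op : QNComb.Letter → MorphismProperty TopCat.{u} → MorphismProperty TopCat.{u}
  | QNComb.Letter.l, P => P.llp
  | QNComb.Letter.r, P => P.rlp

open Helper98 in
lemma negWord_eq (w : FreeMonoid Letter) :
    negWord.{u} w = QNComb.W op.{u} ((FreeMonoid.toList w).map conv) := by
  funext P
  unfold negWord QNComb.W
  rw [List.foldl_map]
  congr 1
  funext Q a
  cases a <;> rfl

open Helper98 in
lemma finite_ops : (Set.range (QNComb.W op.{u})).Finite := by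
  apply QNComb.finite_range
  · intro P
    exact MorphismProperty.llp_rlp_llp P
  · intro P
    exact MorphismProperty.rlp_llp_rlp P
  · intro s hs
    simp only [QNComb.special, List.mem_cons, List.not_mem_nil, or_false] at hs
    rcases hs with rfl | rfl | rfl | rfl | rfl | rfl
    · refine Set.Finite.subset ?_ (Set.range_subset_iff.2 QN.w_rrrrr)
      exact Set.toFinite _
    · refine Set.Finite.subset ?_ (Set.range_subset_iff.2 QN.w_llll)
      exact ((QN.S0_finite.union (Set.toFinite _)).union (QN.S0_finite.image _)).union
        (QN.S0_finite.image _)
    · refine Set.Finite.subset ?_ (Set.range_subset_iff.2 QN.w_llrrrr)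
      exact (Set.toFinite _).union (QN.S0_finite.image _)
    · refine Set.Finite.subset ?_ (Set.range_subset_iff.2 QN.w_llrrrll)
      exact QN.S0_finite.union (QN.S0_finite.image _)
    · refine Set.Finite.subset ?_ (Set.range_subset_iff.2 QN.w_llrrlll)
      exact (QN.S0_finite.union (Set.toFinite _)).union (QN.S0_finite.image _)
    · refine Set.Finite.subset ?_ (Set.range_subset_iff.2 QN.w_llrrllrr)
      exact (QN.S0_finite.image _).union (Set.toFinite _)

/-- The Quillen negation monoid of the category of topological spaces is finite. -/
theorem result : Finite QN.{u} := by
  have h : Finite (Set.range (Helper98.QNComb.W op.{u})) := finite_ops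
  have hlift : ∀ a b : FreeMonoid Letter, wordCon.{u} a b → negWord.{u} a = negWord.{u} b :=
    fun a b hab => funext hab
  let F : QN.{u} → Set.range (Helper98.QNComb.W op.{u}) := fun q =>
    Quotient.liftOn' q (fun w => ⟨negWord.{u} w, by rw [negWord_eq]; exact ⟨_, rfl⟩⟩)
      (fun a b hab => Subtype.ext (hlift a b hab))
  refine Finite.of_injective F ?_
  intro q q'
  induction q using Quotient.inductionOn'
  induction q' using Quotient.inductionOn'
  intro hF
  apply Quotient.sound'
  intro P
  exact congrFun (congrArg Subtype.val hF) P

end Pool.Agent.Results.MP_97cbc3_al.Finiteness
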